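import Pool.Agent.helper38.OB.All
import Pool.Agent.helper38.OB.Res

/-!
# The counting property of B_h-sets forces liminf A(n)/n^(1/h) = 0 if and only if h is even

For a set `A` and signs `e_1, ..., e_h` let `R_e(N)` be the number of the tuples `x` in `A^h` with
`x_i ≠ x_j` whenever `e_i ≠ e_j` (non-cancelling tuples) and `|e_1 x_1 + ... + e_h x_h| ≤ N`. In a B_h-set
the tuples with a given sum are rearrangements of finitely many ones, hence `R_e(N) ≤ K N`. For even `h` this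
alone implies that the liminf is zero; for odd `h` it does not: there are sets with `A(n) ≥ c n^(1/h)` and
`R_e(N) ≤ η N` for all signs and all `N ≥ 1`, for any `η > 0`.
-/

set_option autoImplicit false

namespace Pool.Agent.Results.MP_d7d65f_nt.CountingDichotomy

/-- `B_h`-set: all sums of `h` elements of `A` (repetitions allowed) are different. -/
def IsBh (h : ℕ) (A : Set ℕ) : Prop :=
  ∀ s t : Multiset ℕ, Multiset.card s = h → Multiset.card t = h →
    (∀ x ∈ s, x ∈ A) → (∀ x ∈ t, x ∈ A) → s.sum = t.sum → s = t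

/-- Signs: every `e i` is `1` or `-1`. -/
def Sg {h : ℕ} (e : Fin h → ℤ) : Prop := ∀ i, e i = 1 ∨ e i = -1

/-- The non-cancelling `h`-tuples `x` of elements of `A` (`x i ≠ x j` whenever `e i ≠ e j`) for which the
number `∑ e i * x i` has the property `P`. -/
def Tup {h : ℕ} (A : Set ℕ) (e : Fin h → ℤ) (P : ℤ → Prop) : Set (Fin h → ℕ) :=
  {x | (∀ i, x i ∈ A) ∧ (∀ i j, e i ≠ e j → x i ≠ x j) ∧ P (∑ i, e i * (x i : ℤ))}

/-- The counting property `C_h`: for some `K`, for all signs and all `N ≥ 1` at most `K N` non-cancelling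
tuples have `|∑ e i * x i| ≤ N`. -/
def Counting (h : ℕ) (A : Set ℕ) : Prop :=
  ∃ K : ℕ, ∀ e : Fin h → ℤ, Sg e → ∀ N : ℕ, 1 ≤ N →
    (Tup A e fun t => |t| ≤ N).Finite ∧ (Tup A e fun t => |t| ≤ N).ncard ≤ K * N

/-- `liminf A(n) / n^(1/h) = 0`, where `A(n)` is the number of elements of `A` in `[1, n]`. -/
def LimZero (h : ℕ) (A : Set ℕ) : Prop :=
  ∀ ε : ℝ, 0 < ε → ∀ N : ℕ, ∃ n : ℕ, N ≤ n ∧
    ((A ∩ Set.Icc 1 n).ncard : ℝ) < ε * (n : ℝ) ^ ((1 : ℝ) / (h : ℝ))

/-- (1) Every `B_h`-set has the counting property. (2) The counting property implies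
`liminf A(n) / n^(1/h) = 0` if and only if `h` is even. (3) For odd `h ≥ 3` and every `η > 0` there is a set
`A` of positive integers with `A(n) ≥ c n^(1/h)` for all large `n`, such that for all signs at most `η N`
non-cancelling tuples have `|∑ e i * x i| ≤ N`, for all `N ≥ 1`, and every integer `t` is the sum
`∑ e i * x i` for at most `C log (|t| + 2)` non-cancelling tuples. -/
theorem result :
    (∀ h : ℕ, 1 ≤ h → ∀ A : Set ℕ, IsBh h A → Counting h A) ∧
    (∀ h : ℕ, 2 ≤ h → ((∀ A : Set ℕ, Counting h A → LimZero h A) ↔ Even h)) ∧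
    ∀ h : ℕ, Odd h → 3 ≤ h → ∀ η : ℝ, 0 < η →
      ∃ (A : Set ℕ) (c C : ℝ) (n0 : ℕ), 0 < c ∧ (∀ x ∈ A, 0 < x) ∧
        (∀ n : ℕ, n0 ≤ n → c * (n : ℝ) ^ ((1 : ℝ) / (h : ℝ)) ≤ ((A ∩ Set.Icc 1 n).ncard : ℝ)) ∧
        ∀ e : Fin h → ℤ, Sg e →
          (∀ N : ℕ, 1 ≤ N → (Tup A e fun t => |t| ≤ N).Finite ∧
            ((Tup A e fun t => |t| ≤ N).ncard : ℝ) ≤ η * N) ∧
          ∀ t : ℤ, (Tup A e fun y => y = t).Finite ∧
            ((Tup A e fun y => y = t).ncard : ℝ) ≤ C * Real.log (|(t : ℝ)| + 2) :=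
  ⟨Pool.Agent.OB.t_BHC, Pool.Agent.OB.dich Pool.Agent.OB.t_EVE Pool.Agent.OB.t_ODD,
    Pool.Agent.OB.odd_pos Pool.Agent.OB.t_ODD⟩

end Pool.Agent.Results.MP_d7d65f_nt.CountingDichotomy
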