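import Pool.Agent.helper74.B3.Enum
import Pool.Agent.helper74.BH.Enum

/-!
# The lower density of infinite B_h-sequences, h odd

For every `k ≥ 2` and every infinite `B_(2k-1)`-sequence, `liminf A(n) / n^(1/(2k-1)) ≤ T k`.
-/

set_option autoImplicit false

namespace Pool.Agent.Results.MP_d7d65f_nt.LiminfOdd

/-- the bound for `h = 2 k - 1`: the number `0.865` for `h = 3`, the `h`-th root of
`(k!)^2 (3 k - 1) / (2 k^2 (2 k - 1))` for `h ≥ 5` -/
noncomputable def T (k : ℕ) : ℝ :=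
  if k = 2 then 0.865 else ((k.factorial : ℝ) ^ 2 * (3 * k - 1) / (2 * (k : ℝ) ^ 2 * (2 * k - 1))) ^ ((1 : ℝ) / (2 * k - 1))

theorem result : ∀ k : ℕ, 2 ≤ k → ∀ A : Set ℕ, A.Infinite →
    (∀ s t : Multiset ℕ, Multiset.card s = 2 * k - 1 → Multiset.card t = 2 * k - 1 →
      (∀ x ∈ s, x ∈ A) → (∀ x ∈ t, x ∈ A) → s.sum = t.sum → s = t) →
    ∀ α : ℝ, T k < α → ∀ N : ℕ, ∃ n : ℕ, N ≤ n ∧
      ((A ∩ Set.Icc 1 n).ncard : ℝ) < α * (n : ℝ) ^ ((1 : ℝ) / (2 * k - 1)) := by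
  intro k hk A hA hB α hα N
  unfold T at hα
  split_ifs at hα with h
  · subst h
    have e : (2 * ((2 : ℕ) : ℝ) - 1) = 3 := by norm_num
    rw [e]
    exact Pool.Agent.B3.final A hA hB α (Pool.Agent.B3.const_lt.trans hα) N
  · exact Pool.Agent.BH.final k hk A hA hB α hα N

end Pool.Agent.Results.MP_d7d65f_nt.LiminfOdd
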