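import Pool.Agent.helper48.BH.SI

/-!
# Short intervals in B_h-sets, `h` odd

Let `h = 2k - 1 ≥ 3` be odd and let `A` be a B_h-set.  Fix `m`, put `U = 4^(m-2)`, and let the scale
`j ≥ m` be bad: all but a small proportion `p` of the integers `y` in `[4^j, 4^(j+1))` are such that
`(y, y + ℓ_j]` contains more than `η ℓ_j y^(1/h-1)` elements of `A`.  Choose good positions
`y_0, ..., y_(2k-3)` in disjoint slots of length `2w`, `w = 4^j / K`, and a shift `u` in `[U, 2U)`
such that the position `z = y_0 ± y_1 ± ... + u` is good, too, and elements `x_i` and `a` of `A` in the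
corresponding short intervals.  The number `x_0 ± x_1 ± ... - a` lies in `[-4U, 0)`, it determines the
scale `j` and all the elements, because `A` is a B_h-set, and a bad scale gives at least a constant
times `η^h U` of these numbers.  Hence there are at most `C η^(-h)` bad scales.
-/

set_option autoImplicit false

namespace Pool.Agent.Results.MP_d7d65f_nt.ShortIntervals

/-- B_h-set: all sums of `h` elements of `A`, repetitions allowed, are distinct (as multisets). -/
def IsBh (h : ℕ) (A : Set ℕ) : Prop :=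
  ∀ s t : Multiset ℕ, Multiset.card s = h → Multiset.card t = h →
    (∀ x ∈ s, x ∈ A) → (∀ x ∈ t, x ∈ A) → s.sum = t.sum → s = t

/-- The number of the elements `a` of `A` with `u < a ≤ v`. -/
noncomputable def cnt (A : Set ℕ) (u v : ℝ) : ℕ :=
  (A ∩ {n : ℕ | u < (n : ℝ) ∧ (n : ℝ) ≤ v}).ncard

/-- **Short intervals in B_h-sets, `h` odd.** For every odd `h ≥ 3` there are positive constants
`C`, `p`, `c` and `m₀` such that for every B_h-set `A`, every `m ≥ m₀`, every `η > 0` and all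
lengths `ℓ_j` between `1` and `c 4^m`: for all but at most `C / η^h` of the scales `j ≥ m` at least
`p 4^j` of the integers `y` in `[4^j, 4^(j+1))` are such that `(y, y + ℓ_j]` contains at most
`η ℓ_j y^(1/h-1)` elements of `A`. -/
theorem result (h : ℕ) (hodd : Odd h) (h3 : 3 ≤ h) :
    ∃ C p c : ℝ, ∃ m₀ : ℕ, 0 < C ∧ 0 < p ∧ 0 < c ∧
      ∀ A : Set ℕ, IsBh h A → ∀ m : ℕ, m₀ ≤ m → ∀ η : ℝ, 0 < η →
        ∀ (ℓ : ℕ → ℝ) (S : Finset ℕ),
          (∀ j ∈ S, m ≤ j ∧ 1 ≤ ℓ j ∧ ℓ j ≤ c * 4 ^ m) →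
          (∀ j ∈ S,
            (({y : ℕ | 4 ^ j ≤ y ∧ y < 4 ^ (j + 1) ∧
              (cnt A y (y + ℓ j) : ℝ) ≤ η * ℓ j * (y : ℝ) ^ (1 / (h : ℝ) - 1)}.ncard : ℕ) : ℝ)
              < p * 4 ^ j) →
          (S.card : ℝ) ≤ C / η ^ h := by
  obtain ⟨C, p, c, m₀, hC, hp, hc, -, H⟩ := Pool.Agent.helper48.BH.scales h hodd h3
  refine ⟨C, p, c, m₀, hC, hp, hc, ?_⟩
  intro A hA m hm η hη ℓ S h1 h2
  exact H A hA m hm η hη ℓ S fun j hj => ⟨(h1 j hj).1, (h1 j hj).2.1, (h1 j hj).2.2, h2 j hj⟩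

end Pool.Agent.Results.MP_d7d65f_nt.ShortIntervals
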