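import Pool.Agent.helper22.BHS.Few
import Pool.Agent.helper22.BHS.Iter

/-!
# Dense B_h-sets, h odd, are singular at almost all scales

Let `h = 2k - 1 ≥ 3` be odd and let `A` be a B_h-set with `A(n) ≥ δ n^(1/h)`.  For a scale `j` (the
elements of `A` in `[2^j, 2^(j+1))`) which is not `(ε, D)`-singular one takes the elements in the
cells of length `2^m0` which do not contain too many elements, and looks at the energies
`e_j(m)` = normalised sum of the squares of the numbers of elements in the cells of length `2^m`.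
They are bounded below and above and monotone.  If the energy changes little between the
resolutions `2^m` and `2^(j-Q)`, then the number of the pairs `a ≠ b` of elements in the shell with
`|a - b + y| ≤ 2^(m+1)` is large for all small shifts `y`; with
`y` = (sum of `k-1` small elements) - (sum of `k-2` small elements) the B_h property shows that
this can happen, for a fixed `m`, for a bounded number of scales `j` only.  An
energy increment argument finishes the proof.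
-/

set_option autoImplicit false

open Finset

namespace Pool.Agent.Results.MP_d7d65f_nt.Singularity

/-- B_h-set: all sums of `h` elements (repetitions allowed) are different. -/
def IsBh (h : ℕ) (A : Set ℕ) : Prop :=
  ∀ s t : Multiset ℕ, Multiset.card s = h → Multiset.card t = h →
    (∀ x ∈ s, x ∈ A) → (∀ x ∈ t, x ∈ A) → s.sum = t.sum → s = t

/-- The set `A` is `(ε, D)`-singular at the scale `j` (relative to the order `h`): at most `ε 2^D` of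
the dyadic cells `{n : n / 2^(j-D) = v}` (intervals of length `2^(j-D)`) contain all but at most
`ε 2^(j/h)` of the elements of `A` in `[2^j, 2^(j+1))`. -/
def Singular (h : ℕ) (ε : ℝ) (D j : ℕ) (A : Set ℕ) : Prop :=
  ∃ U : Finset ℕ, (U.card : ℝ) ≤ ε * 2 ^ D ∧
    (({n : ℕ | n ∈ A ∧ 2 ^ j ≤ n ∧ n < 2 ^ (j + 1) ∧ n / 2 ^ (j - D) ∉ U}.ncard : ℕ) : ℝ) ≤
      ε * (2 : ℝ) ^ ((j : ℝ) / (h : ℝ))

open Pool.Agent.BHS in
lemma sing_of {h : ℕ} {δ ε : ℝ} (hδε : δ ≤ ε) {A : Set ℕ} {D j : ℕ}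
    (hS : Sing h δ A D j) : Singular h ε D j A := by
  classical
  obtain ⟨U, hU1, hU2⟩ := hS
  refine ⟨U, hU1.trans (mul_le_mul_of_nonneg_right hδε (by positivity)), ?_⟩
  have h1 : {n : ℕ | n ∈ A ∧ 2 ^ j ≤ n ∧ n < 2 ^ (j + 1) ∧ n / 2 ^ (j - D) ∉ U} =
      (outside A j D U : Set ℕ) := by
    ext n
    unfold outside
    simp only [Set.mem_ofPred_eq, Finset.coe_filter, mem_shell]
    tauto
  rw [h1, Set.ncard_coe_finset]
  refine hU2.trans ?_
  exact mul_le_mul_of_nonneg_right hδε (X_pos h j).le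

open Pool.Agent.BHS in
/-- The uniform theorem. -/
theorem main (h : ℕ) (hodd : Odd h) (h3 : 3 ≤ h) (δ₀ ε : ℝ) (hδ₀ : 0 < δ₀) (hε : 0 < ε) :
    ∃ D₀ : ℕ, ∀ D : ℕ, D₀ ≤ D → ∃ m₁ : ℕ, ∀ A : Set ℕ, IsBh h A → ∀ m : ℕ, m₁ ≤ m →
      (∀ n : ℕ, 2 ^ m ≤ n → n ≤ 2 ^ (m + D) →
        δ₀ * (n : ℝ) ^ ((1 : ℝ) / (h : ℝ)) ≤ ((A ∩ Set.Icc 1 n).ncard : ℝ)) →
      (({j : ℕ | m ≤ j ∧ j < m + D ∧ ¬ Singular h ε D j A}.ncard : ℕ) : ℝ) ≤ ε * D := by
  classical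
  obtain ⟨k, hk, hkh⟩ : ∃ k : ℕ, 2 ≤ k ∧ h = 2 * k - 1 := by
    obtain ⟨r, hr⟩ := hodd
    exact ⟨r + 1, by omega, by omega⟩
  have hh1 : 1 ≤ h := by omega
  set δ := min δ₀ ε with hδdef
  have hδ : 0 < δ := lt_min hδ₀ hε
  have hδ1 : δ ≤ δ₀ := min_le_left _ _
  have hδ2 : δ ≤ ε := min_le_right _ _
  have hC := CC_pos hh1
  set Λ : ℝ := CC h ^ 2 / δ with hΛ
  have hΛ0 : 0 < Λ := by positivity
  set η : ℝ := δ ^ 4 / (64 * Λ) with hη
  have hη0 : 0 < η := by positivity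
  obtain ⟨M₀, hM₀⟩ := iter Λ η (ε / 2) (KK k δ) (fun Q => KK_nonneg k hδ Q) hη0 (by positivity)
  obtain ⟨D₁, hD₁⟩ := exists_nat_ge (2 * ((k : ℝ) + 3) / ε)
  refine ⟨max (M₀ + (k + 3)) D₁, ?_⟩
  intro D hD
  have hDM : M₀ + (k + 3) ≤ D := le_trans (le_max_left _ _) hD
  have hDD : D₁ ≤ D := le_trans (le_max_right _ _) hD
  set M := D - (k + 3) with hM
  obtain ⟨j₁, hj₁⟩ := X_large hh1 (8 * CC h * 2 ^ M / δ ^ 2)
  obtain ⟨j₂, hj₂⟩ := X_large hh1 (6 * (k : ℝ) / δ)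
  refine ⟨max (max j₁ j₂) D, ?_⟩
  intro A hA m hm hdens
  have hm1 : j₁ ≤ m := le_trans (le_trans (le_max_left _ _) (le_max_left _ _)) hm
  have hm2 : j₂ ≤ m := le_trans (le_trans (le_max_right _ _) (le_max_left _ _)) hm
  have hmD : D ≤ m := le_trans (le_max_right _ _) hm
  set m0 := m + (k + 3) with hm0
  have hb1 : 8 * CC h * 2 ^ M ≤ δ ^ 2 * X h m0 := by
    have h1 := hj₁ m0 (by omega)
    rw [div_le_iff₀ (by positivity)] at h1
    linarith
  have hb2 : 6 * (k : ℝ) ≤ δ * X h (m0 - (k + 1)) := by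
    have h1 := hj₂ (m0 - (k + 1)) (by omega)
    rw [div_le_iff₀ hδ] at h1
    linarith
  have hdens' : ∀ i, m0 - (k + 1) ≤ i → i ≤ m0 + M →
      δ * X h i ≤ ((A ∩ Set.Icc 1 (2 ^ i)).ncard : ℝ) := by
    intro i hi1 hi2
    have h1 := hdens (2 ^ i) (Nat.pow_le_pow_right (by norm_num) (by omega))
      (Nat.pow_le_pow_right (by norm_num) (by omega))
    refine le_trans ?_ h1
    have h2 : X h i = (((2 ^ i : ℕ) : ℝ)) ^ ((1 : ℝ) / (h : ℝ)) := by
      unfold X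
      push_cast
      rw [← Real.rpow_natCast, ← Real.rpow_mul (by norm_num)]
      congr 1
      ring
    rw [← h2]
    exact mul_le_mul_of_nonneg_right hδ1 (X_pos h i).le
  set N := (Finset.Ico m0 (m0 + M)).filter (fun j => ¬ Sing h δ A (j - m0) j) with hN
  have hNmem : ∀ j ∈ N, m0 ≤ j ∧ j < m0 + M := by
    intro j hj
    exact Finset.mem_Ico.1 (Finset.mem_filter.1 hj).1
  have hex : ∀ j, ∃ L : Finset ℕ, L ⊆ shell A j ∧ (j ∈ N → δ * X h j ≤ (L.card : ℝ) ∧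
      ∀ m, m0 ≤ m → m ≤ j → en L j m ≤ Λ * X h j ^ 2) := by
    intro j
    by_cases hj : j ∈ N
    · obtain ⟨L, hL1, hL2, hL3⟩ := light hh1 hA hδ (hNmem j hj).1 (Finset.mem_filter.1 hj).2
      exact ⟨L, hL1, fun _ => ⟨hL2, hL3⟩⟩
    · exact ⟨∅, Finset.empty_subset _, fun h => absurd h hj⟩
  choose L hL1 hL2 using hex
  have hXp : ∀ j, 0 < X h j ^ 2 := fun j => pow_pos (X_pos h j) 2
  have hwin : Win Λ η (KK k δ) m0 M N (fun j m => en (L j) j m / X h j ^ 2) := by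
    refine ⟨hNmem, ?_, ?_, ?_, ?_⟩
    · intro j _ m _ _
      exact div_nonneg (en_nonneg _ _ _) (hXp j).le
    · intro j hj m h1 h2
      exact (div_le_iff₀ (hXp j)).2 ((hL2 j hj).2 m h1 h2)
    · intro j _ m m' _ h2 h4
      exact div_le_div_of_nonneg_right (en_mono (L j) j m m' h2 h4) (hXp j).le
    · intro Q m h1 h2
      subst hkh
      exact few hk hA hδ hΛ0 (by omega) hb1 hb2 hdens' hNmem hL1 (fun j hj => (hL2 j hj).1)
        (fun j hj => (hL2 j hj).2) Q m h1 h2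
  have hNc := hM₀ m0 M N _ hwin (by omega)
  -- the count
  have hsub : {j : ℕ | m ≤ j ∧ j < m + D ∧ ¬ Singular h ε D j A} ⊆
      ((Finset.Ico m m0 ∪ N : Finset ℕ) : Set ℕ) := by
    rintro j ⟨hj1, hj2, hj3⟩
    rw [Finset.mem_coe, Finset.mem_union]
    by_cases hj4 : j < m0
    · left
      exact Finset.mem_Ico.2 ⟨hj1, hj4⟩
    · right
      rw [not_lt] at hj4
      refine Finset.mem_filter.2 ⟨Finset.mem_Ico.2 ⟨hj4, by omega⟩, ?_⟩
      intro hS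
      exact hj3 (sing_of hδ2 (hS.refine (by omega) (by omega)))
  have h1 := Set.ncard_le_ncard hsub (Finset.finite_toSet _)
  rw [Set.ncard_coe_finset] at h1
  have h2 := h1.trans (Finset.card_union_le _ _)
  rw [Nat.card_Ico] at h2
  have h4 : m0 - m = k + 3 := by omega
  rw [h4] at h2
  have h5 : (({j : ℕ | m ≤ j ∧ j < m + D ∧ ¬ Singular h ε D j A}.ncard : ℕ) : ℝ) ≤
      ((k : ℝ) + 3) + (N.card : ℝ) := by
    exact_mod_cast h2
  have h6 : (M : ℝ) ≤ D := by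
    have : M ≤ D := by omega
    exact_mod_cast this
  have h7 : 2 * ((k : ℝ) + 3) ≤ D * ε := by
    have h8 : (D₁ : ℝ) ≤ D := by exact_mod_cast hDD
    have h9 := hD₁.trans h8
    rwa [div_le_iff₀ hε] at h9
  have h8 : ε / 2 * (M : ℝ) ≤ ε / 2 * D := mul_le_mul_of_nonneg_left h6 (by positivity)
  linarith

/-- For every odd `h ≥ 3` and all `δ, ε > 0` there is `D₀` such that for all `D ≥ D₀` there is `m₁` such
that for every B_h-set `A` and every `m ≥ m₁`: if more than `ε D` of the scales `j` in `[m, m + D)` are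
not `(ε, D)`-singular for `A`, then `A(n) < δ n^(1/h)` for some `n` in `[2^m, 2^(m+D)]`. -/
theorem result :
    ∀ h : ℕ, Odd h → 3 ≤ h → ∀ δ ε : ℝ, 0 < δ → 0 < ε →
      ∃ D₀ : ℕ, ∀ D : ℕ, D₀ ≤ D → ∃ m₁ : ℕ, ∀ A : Set ℕ, IsBh h A → ∀ m : ℕ, m₁ ≤ m →
        ε * D < (({j : ℕ | m ≤ j ∧ j < m + D ∧ ¬ Singular h ε D j A}.ncard : ℕ) : ℝ) →
        ∃ n : ℕ, 2 ^ m ≤ n ∧ n ≤ 2 ^ (m + D) ∧
          ((A ∩ Set.Icc 1 n).ncard : ℝ) < δ * (n : ℝ) ^ ((1 : ℝ) / (h : ℝ)) := by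
  intro h hodd h3 δ ε hδ hε
  obtain ⟨D₀, hD₀⟩ := main h hodd h3 δ ε hδ hε
  refine ⟨D₀, fun D hD => ?_⟩
  obtain ⟨m₁, hm₁⟩ := hD₀ D hD
  refine ⟨m₁, fun A hA m hm hlt => ?_⟩
  by_contra hcon
  push Not at hcon
  have h1 := hm₁ A hA m hm hcon
  linarith

/-- The consequence for infinite sequences: the lower density is zero if for some `ε > 0` and
arbitrarily large `D` infinitely many windows `[m, m + D)` contain more than `ε D` scales which are
not `(ε, D)`-singular. -/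
theorem liminf_zero (h : ℕ) (hodd : Odd h) (h3 : 3 ≤ h) (A : Set ℕ) (hA : IsBh h A)
    (hns : ∃ ε : ℝ, 0 < ε ∧ ∀ D₀ : ℕ, ∃ D : ℕ, D₀ ≤ D ∧ ∀ m₁ : ℕ, ∃ m : ℕ, m₁ ≤ m ∧
        ε * D < (({j : ℕ | m ≤ j ∧ j < m + D ∧ ¬ Singular h ε D j A}.ncard : ℕ) : ℝ)) :
    ∀ ε : ℝ, 0 < ε → ∀ N : ℕ, ∃ n : ℕ, N ≤ n ∧
        ((A ∩ Set.Icc 1 n).ncard : ℝ) < ε * (n : ℝ) ^ ((1 : ℝ) / (h : ℝ)) := by
  intro δ hδ N
  obtain ⟨ε, hε, hns⟩ := hns
  obtain ⟨D₀, hD₀⟩ := result h hodd h3 δ ε hδ hε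
  obtain ⟨D, hD, hns⟩ := hns D₀
  obtain ⟨m₁, hm₁⟩ := hD₀ D hD
  obtain ⟨m, hm, hlt⟩ := hns (max m₁ N)
  obtain ⟨n, hn1, _, hn2⟩ := hm₁ A hA m (le_trans (le_max_left _ _) hm) hlt
  refine ⟨n, ?_, hn2⟩
  have h2 : N ≤ m := le_trans (le_max_right _ _) hm
  have h4 : m < 2 ^ m := Nat.lt_two_pow_self
  omega

end Pool.Agent.Results.MP_d7d65f_nt.Singularity
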